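import Mathlib

/-!
# Möbius pattern complexity can be exponential in the Möbius sparsity

Let `f : {0,1}^n → {0,1}` and let `f(x) = ∑ S, c_S ∏ i ∈ S, x_i` be its representation in the AND
(Möbius) basis.  We give, for every `t`, a Boolean function of `2 t + 1` variables with exactly
`2 t + 1` nonzero Möbius coefficients and with at least `2 ^ (t + 1)` Möbius patterns.  So
`log₂ Pat(f) ≥ (spar(f) + 1) / 2`, and there is no bound of the form
`Pat(f) ≤ 2 ^ (C * spar(f) ^ (1 - δ))`.

The function: the variables are `x_0, …, x_{t-1}` and `y_0, …, y_t`.  If all `x_j` are one, the value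
is `y_0`; if exactly one `x_i` is zero, the value is `y_{i+1}`; otherwise the value is zero.
-/

set_option autoImplicit false

namespace Pool.Agent.Results.MP_e3e9ef_lc.LinearPatterns

open Finset

variable {n : ℕ}

/-- The function `AND_S(x) = ∏ i ∈ S, x_i`. -/
def andS (S : Finset (Fin n)) (x : Fin n → Bool) : Bool := decide (∀ i ∈ S, x i = true)

/-- The value of a bit as a real number. -/
def val (b : Bool) : ℝ := if b = true then 1 else 0

/-- The Möbius coefficient `c_S` of `f`, by Möbius inversion:
`c_S = ∑ T ⊆ S, (-1)^|S \ T| f(1_T)`. See `coeff_spec` and `coeff_unique`. -/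
noncomputable def coeff (f : (Fin n → Bool) → Bool) (S : Finset (Fin n)) : ℝ :=
  ∑ T ∈ S.powerset, (-1 : ℝ) ^ (S \ T).card * val (f fun i => decide (i ∈ T))

/-- The Möbius support of `f`. -/
noncomputable def supp (f : (Fin n → Bool) → Bool) : Finset (Finset (Fin n)) :=
  univ.filter fun S => coeff f S ≠ 0

/-- The Möbius sparsity of `f`. -/
noncomputable def spar (f : (Fin n → Bool) → Bool) : ℕ := (supp f).card

/-- The Möbius pattern `(AND_S(x))_{S ∈ supp f}` of `x` with respect to `f`. -/
def pattern (f : (Fin n → Bool) → Bool) (x : Fin n → Bool) : supp f → Bool :=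
  fun S => andS S.1 x

/-- The Möbius pattern complexity of `f`: the number of distinct Möbius patterns. -/
noncomputable def Pat (f : (Fin n → Bool) → Bool) : ℕ := (Set.range (pattern f)).ncard

lemma val_andS (S : Finset (Fin n)) (x : Fin n → Bool) :
    val (andS S x) = ∏ i ∈ S, val (x i) := by
  unfold val andS
  by_cases h : ∀ i ∈ S, x i = true
  · rw [if_pos (by simpa using h)]
    rw [Finset.prod_eq_one]
    intro i hi
    rw [if_pos (h i hi)]
  · rw [if_neg (by simpa using h)]
    push Not at h
    obtain ⟨i, hi, h⟩ := h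
    rw [Finset.prod_eq_zero hi]
    rw [if_neg h]

/-- Two real functions on the subsets with the same sums over the subsets of every set agree. -/
lemma eq_of_sum_powerset (c d : Finset (Fin n) → ℝ)
    (h : ∀ T : Finset (Fin n), ∑ S ∈ T.powerset, c S = ∑ S ∈ T.powerset, d S) : c = d := by
  funext T
  induction T using Finset.strongInduction with
  | H T ih =>
    have h1 := h T
    rw [← Finset.insert_erase (Finset.mem_powerset_self T),
      Finset.sum_insert (Finset.notMem_erase _ _), Finset.sum_insert (Finset.notMem_erase _ _)] at h1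
    have h2 : ∑ S ∈ T.powerset.erase T, c S = ∑ S ∈ T.powerset.erase T, d S := by
      apply Finset.sum_congr rfl
      intro S hS
      rw [Finset.mem_erase, Finset.mem_powerset] at hS
      exact ih S (Finset.ssubset_iff_subset_ne.2 ⟨hS.2, hS.1⟩)
    linarith

lemma sum_andS (c : Finset (Fin n) → ℝ) (T : Finset (Fin n)) :
    ∑ S, c S * val (andS S fun i => decide (i ∈ T)) = ∑ S ∈ T.powerset, c S := by
  rw [← Finset.sum_filter_add_sum_filter_not univ (fun S => S ⊆ T)]
  have h1 : ∑ S ∈ univ.filter (fun S => ¬ S ⊆ T), c S * val (andS S fun i => decide (i ∈ T)) = 0 := by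
    apply Finset.sum_eq_zero
    intro S hS
    rw [Finset.mem_filter] at hS
    have : andS S (fun i => decide (i ∈ T)) = false := by
      unfold andS
      rw [decide_eq_false_iff_not]
      intro h
      apply hS.2
      intro i hi
      simpa using h i hi
    rw [this]
    simp [val]
  rw [h1, add_zero]
  have h2 : univ.filter (fun S => S ⊆ T) = T.powerset := by
    ext S
    simp
  rw [h2]
  apply Finset.sum_congr rfl
  intro S hS
  rw [Finset.mem_powerset] at hS
  have : andS S (fun i => decide (i ∈ T)) = true := by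
    unfold andS
    rw [decide_eq_true_iff]
    intro i hi
    simpa using hS hi
  rw [this]
  simp [val]

lemma exists_set (x : Fin n → Bool) : ∃ T : Finset (Fin n), x = fun i => decide (i ∈ T) := by
  refine ⟨univ.filter (fun i => x i = true), ?_⟩
  funext i
  simp

/-- Möbius inversion on the lattice of subsets. -/
lemma sum_coeff (f : (Fin n → Bool) → Bool) (T : Finset (Fin n)) :
    ∑ S ∈ T.powerset, coeff f S = val (f fun i => decide (i ∈ T)) := by
  unfold coeff
  have h1 : ∀ S ∈ T.powerset, ∑ U ∈ S.powerset, (-1 : ℝ) ^ (S \ U).card *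
      val (f fun i => decide (i ∈ U)) = ∑ U ∈ T.powerset, if U ⊆ S then
        (-1 : ℝ) ^ (S \ U).card * val (f fun i => decide (i ∈ U)) else 0 := by
    intro S hS
    rw [Finset.mem_powerset] at hS
    rw [← Finset.sum_filter]
    apply Finset.sum_congr _ (fun _ _ => rfl)
    ext U
    simp only [Finset.mem_powerset, Finset.mem_filter]
    exact ⟨fun h => ⟨h.trans hS, h⟩, fun h => h.2⟩
  rw [Finset.sum_congr rfl h1, Finset.sum_comm]
  have h2 : ∀ U ∈ T.powerset, ∑ S ∈ T.powerset, (if U ⊆ S then
      (-1 : ℝ) ^ (S \ U).card * val (f fun i => decide (i ∈ U)) else 0) =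
      if U = T then val (f fun i => decide (i ∈ U)) else 0 := by
    intro U hU
    rw [Finset.mem_powerset] at hU
    rw [← Finset.sum_filter, ← Finset.sum_mul]
    have h3 : ∑ S ∈ T.powerset.filter (fun S => U ⊆ S), (-1 : ℝ) ^ (S \ U).card =
        ∑ W ∈ (T \ U).powerset, (-1 : ℝ) ^ W.card := by
      symm
      apply Finset.sum_bij (fun W _ => U ∪ W)
      · intro W hW
        rw [Finset.mem_powerset] at hW
        rw [Finset.mem_filter, Finset.mem_powerset]
        exact ⟨Finset.union_subset hU (hW.trans Finset.sdiff_subset), Finset.subset_union_left⟩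
      · intro W hW W' hW' h
        rw [Finset.mem_powerset] at hW hW'
        ext i
        have h4 := Finset.ext_iff.1 h i
        simp only [Finset.mem_union] at h4
        constructor
        · intro hi
          have := (Finset.mem_sdiff.1 (hW hi)).2
          tauto
        · intro hi
          have := (Finset.mem_sdiff.1 (hW' hi)).2
          tauto
      · intro S hS
        rw [Finset.mem_filter, Finset.mem_powerset] at hS
        refine ⟨S \ U, ?_, ?_⟩
        · rw [Finset.mem_powerset]
          exact Finset.sdiff_subset_sdiff hS.1 le_rfl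
        · exact Finset.union_sdiff_of_subset hS.2
      · intro W hW
        rw [Finset.mem_powerset] at hW
        congr 2
        ext i
        simp only [Finset.mem_sdiff, Finset.mem_union]
        constructor
        · intro hi
          have := (Finset.mem_sdiff.1 (hW hi)).2
          tauto
        · tauto
    rw [h3]
    have h5 : ∑ W ∈ (T \ U).powerset, (-1 : ℝ) ^ W.card = if U = T then 1 else 0 := by
      have h6 := Finset.sum_powerset_neg_one_pow_card (x := T \ U)
      have h7 : ∑ W ∈ (T \ U).powerset, (-1 : ℝ) ^ W.card =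
          ((∑ W ∈ (T \ U).powerset, (-1 : ℤ) ^ W.card : ℤ) : ℝ) := by
        push_cast
        rfl
      rw [h7, h6]
      by_cases h8 : U = T
      · subst h8
        simp
      · rw [if_neg h8, if_neg]
        · simp
        · intro h9
          rw [Finset.sdiff_eq_empty_iff_subset] at h9
          exact h8 (Finset.Subset.antisymm hU h9)
    rw [h5]
    split_ifs <;> simp
  rw [Finset.sum_congr rfl h2, Finset.sum_ite_eq' T.powerset T, if_pos (Finset.mem_powerset_self T)]

/-- The representation `f(x) = ∑ S, c_S AND_S(x)`. -/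
theorem coeff_spec (f : (Fin n → Bool) → Bool) (x : Fin n → Bool) :
    val (f x) = ∑ S, coeff f S * ∏ i ∈ S, val (x i) := by
  obtain ⟨T, rfl⟩ := exists_set x
  simp_rw [← val_andS]
  rw [sum_andS, sum_coeff]

/-- The Möbius coefficients are determined by the representation. -/
theorem coeff_unique (f : (Fin n → Bool) → Bool) (c : Finset (Fin n) → ℝ)
    (h : ∀ x, val (f x) = ∑ S, c S * ∏ i ∈ S, val (x i)) : c = coeff f := by
  apply eq_of_sum_powerset
  intro T
  rw [← sum_andS, ← sum_andS]
  have h1 := h (fun i => decide (i ∈ T))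
  have h2 := coeff_spec f (fun i => decide (i ∈ T))
  simp_rw [val_andS]
  rw [← h1, ← h2]

section Example

variable (t : ℕ)

/-- The variable `x_j`. -/
def xv (j : Fin t) : Fin (2 * t + 1) := ⟨j.1, by omega⟩

/-- The variable `y_a`. -/
def yv (a : Fin (t + 1)) : Fin (2 * t + 1) := ⟨t + a.1, by omega⟩

/-- The function: `y_0` if all `x_j` are one, `y_{i+1}` if `x_i` is the only `x_j` that is zero. -/
def func (z : Fin (2 * t + 1) → Bool) : Bool :=
  decide (((∀ j, z (xv t j) = true) ∧ z (yv t 0) = true) ∨
    ∃ i : Fin t, (∀ j, j ≠ i → z (xv t j) = true) ∧ z (xv t i) = false ∧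
      z (yv t i.succ) = true)

/-- The monomial `x_0 ⋯ x_{t-1} y_a`. -/
def big (a : Fin (t + 1)) : Finset (Fin (2 * t + 1)) :=
  insert (yv t a) (univ.image (xv t))

/-- The monomial `y_{i+1} ∏ j ≠ i, x_j`. -/
def small (i : Fin t) : Finset (Fin (2 * t + 1)) :=
  insert (yv t i.succ) ((univ.erase i).image (xv t))

lemma xv_ne_yv (j : Fin t) (a : Fin (t + 1)) : xv t j ≠ yv t a := by
  intro h
  have := congrArg Fin.val h
  simp only [xv, yv] at this
  omega

lemma xv_inj : Function.Injective (xv t) := by
  intro i j h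
  have := congrArg Fin.val h
  simp only [xv] at this
  exact Fin.ext this

lemma yv_inj : Function.Injective (yv t) := by
  intro i j h
  have := congrArg Fin.val h
  simp only [yv] at this
  exact Fin.ext (by omega)

lemma andS_big (a : Fin (t + 1)) (z : Fin (2 * t + 1) → Bool) :
    andS (big t a) z = true ↔ (∀ j, z (xv t j) = true) ∧ z (yv t a) = true := by
  unfold andS big
  simp [and_comm]

lemma andS_small (i : Fin t) (z : Fin (2 * t + 1) → Bool) :
    andS (small t i) z = true ↔
      (∀ j, j ≠ i → z (xv t j) = true) ∧ z (yv t i.succ) = true := by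
  unfold andS small
  simp [and_comm]

lemma yv_mem_big (a b : Fin (t + 1)) : yv t b ∈ big t a ↔ b = a := by
  unfold big
  rw [Finset.mem_insert, Finset.mem_image]
  constructor
  · rintro (h | ⟨j, _, h⟩)
    · exact yv_inj t h
    · exact absurd h (xv_ne_yv t j b)
  · rintro rfl
    exact Or.inl rfl

lemma yv_mem_small (i : Fin t) (b : Fin (t + 1)) : yv t b ∈ small t i ↔ b = i.succ := by
  unfold small
  rw [Finset.mem_insert, Finset.mem_image]
  constructor
  · rintro (h | ⟨j, _, h⟩)
    · exact yv_inj t h
    · exact absurd h (xv_ne_yv t j b)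
  · rintro rfl
    exact Or.inl rfl

lemma xv_mem_big (a : Fin (t + 1)) (j : Fin t) : xv t j ∈ big t a := by
  unfold big
  simp

lemma xv_notMem_small (i : Fin t) : xv t i ∉ small t i := by
  unfold small
  rw [Finset.mem_insert, Finset.mem_image]
  rintro (h | ⟨j, h1, h⟩)
  · exact xv_ne_yv t i _ h
  · exact (Finset.mem_erase.1 h1).1 (xv_inj t h)

lemma big_inj : Function.Injective (big t) := by
  intro a b h
  have h1 := (yv_mem_big t a a).2 rfl
  rw [h, yv_mem_big] at h1
  exact h1

lemma small_inj : Function.Injective (small t) := by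
  intro a b h
  have h1 := (yv_mem_small t a a.succ).2 rfl
  rw [h, yv_mem_small] at h1
  exact Fin.succ_injective _ h1

lemma big_ne_small (a : Fin (t + 1)) (i : Fin t) : big t a ≠ small t i := by
  intro h
  have h1 := xv_mem_big t a i
  rw [h] at h1
  exact xv_notMem_small t i h1

/-- The Möbius coefficients of `func`. -/
noncomputable def cf (S : Finset (Fin (2 * t + 1))) : ℝ :=
  (if S = big t 0 then 1 else 0) +
    ∑ i : Fin t, ((if S = small t i then 1 else 0) - (if S = big t i.succ then 1 else 0))

lemma cf_sum (z : Fin (2 * t + 1) → Bool) :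
    ∑ S, cf t S * val (andS S z) = val (andS (big t 0) z) +
      ∑ i : Fin t, (val (andS (small t i) z) - val (andS (big t i.succ) z)) := by
  unfold cf
  simp_rw [add_mul, Finset.sum_add_distrib, Finset.sum_mul]
  rw [Finset.sum_comm]
  simp [sub_mul, Finset.sum_sub_distrib]

lemma cf_spec (z : Fin (2 * t + 1) → Bool) :
    val (func t z) = ∑ S, cf t S * val (andS S z) := by
  rw [cf_sum]
  by_cases h : ∀ j, z (xv t j) = true
  · -- all `x_j` are one
    have h1 : ∑ i : Fin t, (val (andS (small t i) z) - val (andS (big t i.succ) z)) = 0 := by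
      apply Finset.sum_eq_zero
      intro i _
      have : andS (small t i) z = andS (big t i.succ) z := by
        rw [Bool.eq_iff_iff, andS_small, andS_big]
        exact ⟨fun h2 => ⟨h, h2.2⟩, fun h2 => ⟨fun j _ => h j, h2.2⟩⟩
      rw [this, sub_self]
    rw [h1, add_zero]
    congr 1
    rw [Bool.eq_iff_iff, andS_big]
    unfold func
    rw [decide_eq_true_iff]
    constructor
    · rintro (h2 | ⟨i, _, h3, _⟩)
      · exact h2
      · rw [h i] at h3
        exact absurd h3 (by simp)
    · intro h2
      exact Or.inl h2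
  · have hb : ∀ a, andS (big t a) z = false := by
      intro a
      rw [← Bool.not_eq_true, andS_big]
      exact fun h2 => h h2.1
    simp_rw [hb]
    push Not at h
    obtain ⟨i, hi⟩ := h
    have hi' : z (xv t i) = false := by simpa using hi
    rw [Finset.sum_eq_single i]
    · simp only [val, Bool.false_eq_true, if_false, zero_add, sub_zero]
      congr 1
      rw [andS_small]
      unfold func
      rw [decide_eq_true_iff]
      apply propext
      constructor
      · rintro (⟨h2, _⟩ | ⟨k, h2, h3, h4⟩)
        · exact absurd (h2 i) hi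
        · have : i = k := by
            by_contra hne
            exact hi (h2 i hne)
          subst this
          exact ⟨h2, h4⟩
      · rintro ⟨h2, h3⟩
        exact Or.inr ⟨i, h2, hi', h3⟩
    · intro k _ hk
      have : andS (small t k) z = false := by
        rw [← Bool.not_eq_true, andS_small]
        exact fun h2 => hi (h2.1 i (Ne.symm hk))
      rw [this]
      simp [val]
    · simp

lemma coeff_func : coeff (func t) = cf t := by
  symm
  apply coeff_unique
  intro x
  simp_rw [← val_andS]
  exact cf_spec t x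

lemma cf_big_zero : cf t (big t 0) = 1 := by
  unfold cf
  have h1 : ∀ i : Fin t, ¬ big t 0 = small t i := fun i => big_ne_small t 0 i
  have h2 : ∀ i : Fin t, ¬ big t 0 = big t i.succ := by
    intro i h
    have := big_inj t h
    exact absurd this.symm (Fin.succ_ne_zero i)
  simp [h1, h2]

lemma cf_big_succ (i : Fin t) : cf t (big t i.succ) = -1 := by
  unfold cf
  have h1 : ∀ k : Fin t, ¬ big t i.succ = small t k := fun k => big_ne_small t _ k
  have h2 : ¬ big t i.succ = big t 0 := by
    intro h
    exact absurd (big_inj t h) (Fin.succ_ne_zero i)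
  have h3 : ∀ k : Fin t, (big t i.succ = big t k.succ) ↔ i = k := by
    intro k
    exact ⟨fun h => Fin.succ_injective _ (big_inj t h), fun h => by rw [h]⟩
  simp [h1, h2, h3]

lemma cf_small (i : Fin t) : cf t (small t i) = 1 := by
  unfold cf
  have h1 : ∀ a, ¬ small t i = big t a := fun a h => big_ne_small t a i h.symm
  have h3 : ∀ k : Fin t, (small t i = small t k) ↔ i = k := by
    intro k
    exact ⟨fun h => small_inj t h, fun h => by rw [h]⟩
  simp [h1, h3]

lemma supp_func : supp (func t) = univ.image (big t) ∪ univ.image (small t) := by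
  ext S
  unfold supp
  rw [Finset.mem_filter, coeff_func, Finset.mem_union, Finset.mem_image, Finset.mem_image]
  constructor
  · rintro ⟨_, h⟩
    by_contra hcon
    push Not at hcon
    apply h
    unfold cf
    have h1 : ∀ a, ¬ S = big t a := fun a h2 => hcon.1 a (mem_univ a) h2.symm
    have h2 : ∀ i, ¬ S = small t i := fun i h2 => hcon.2 i (mem_univ i) h2.symm
    simp [h1, h2]
  · intro h
    refine ⟨mem_univ S, ?_⟩
    rcases h with ⟨a, _, rfl⟩ | ⟨i, _, rfl⟩
    · induction a using Fin.cases with
      | zero => rw [cf_big_zero]; norm_num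
      | succ i => rw [cf_big_succ]; norm_num
    · rw [cf_small]; norm_num

lemma spar_func : spar (func t) = 2 * t + 1 := by
  unfold spar
  rw [supp_func, Finset.card_union_of_disjoint, Finset.card_image_of_injective _ (big_inj t),
    Finset.card_image_of_injective _ (small_inj t), Finset.card_univ, Finset.card_univ,
    Fintype.card_fin, Fintype.card_fin]
  · omega
  · rw [Finset.disjoint_left]
    intro S h1 h2
    rw [Finset.mem_image] at h1 h2
    obtain ⟨a, _, rfl⟩ := h1
    obtain ⟨i, _, h2⟩ := h2
    exact big_ne_small t a i h2.symm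

lemma big_mem_supp (a : Fin (t + 1)) : big t a ∈ supp (func t) := by
  rw [supp_func, Finset.mem_union]
  exact Or.inl (Finset.mem_image_of_mem _ (mem_univ a))

/-- The input with all `x_j` equal to one and given `y`. -/
def inp (y : Fin (t + 1) → Bool) (k : Fin (2 * t + 1)) : Bool :=
  if h : t ≤ k.1 then y ⟨k.1 - t, by omega⟩ else true

lemma inp_xv (y : Fin (t + 1) → Bool) (j : Fin t) : inp t y (xv t j) = true := by
  unfold inp xv
  rw [dif_neg]
  simp

lemma inp_yv (y : Fin (t + 1) → Bool) (a : Fin (t + 1)) : inp t y (yv t a) = y a := by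
  unfold inp yv
  rw [dif_pos (by simp)]
  congr 1
  apply Fin.ext
  simp

lemma le_Pat : 2 ^ (t + 1) ≤ Pat (func t) := by
  have hinj : Function.Injective (fun y : Fin (t + 1) → Bool => pattern (func t) (inp t y)) := by
    intro y y' h
    funext a
    have h1 := congrFun h ⟨big t a, big_mem_supp t a⟩
    simp only [pattern] at h1
    rw [Bool.eq_iff_iff, andS_big, andS_big, inp_yv, inp_yv] at h1
    simp only [inp_xv, implies_true, true_and] at h1
    exact Bool.eq_iff_iff.2 h1
  unfold Pat
  have h1 : Set.range (fun y : Fin (t + 1) → Bool => pattern (func t) (inp t y)) ⊆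
      Set.range (pattern (func t)) := by
    rintro _ ⟨y, rfl⟩
    exact ⟨inp t y, rfl⟩
  have h2 := Set.ncard_le_ncard h1 (Set.toFinite _)
  refine le_trans (le_of_eq ?_) h2
  rw [← Set.image_univ, Set.ncard_image_of_injective _ hinj, Set.ncard_univ]
  simp

end Example

/-- **Main theorem.** (1) For every `t` there is a Boolean function of `2 t + 1` variables with Möbius
sparsity exactly `2 t + 1` and with at least `2 ^ (t + 1)` Möbius patterns. (2) There are no constants
`δ > 0` and `C > 0` such that `Pat(f) ≤ 2 ^ (C * spar(f) ^ (1 - δ))` for all Boolean functions `f`. -/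
theorem result :
    (∀ t : ℕ, ∃ f : (Fin (2 * t + 1) → Bool) → Bool,
      spar f = 2 * t + 1 ∧ 2 ^ (t + 1) ≤ Pat f) ∧
    ¬ ∃ δ C : ℝ, 0 < δ ∧ 0 < C ∧ ∀ (n : ℕ) (f : (Fin n → Bool) → Bool),
      (Pat f : ℝ) ≤ (2 : ℝ) ^ (C * (spar f : ℝ) ^ (1 - δ)) := by
  refine ⟨fun t => ⟨func t, spar_func t, le_Pat t⟩, ?_⟩
  rintro ⟨δ, C, hδ, hC, h⟩
  -- for large `t`, `C * (2 t + 1) ^ (1 - δ) < t + 1`
  have hlim : Filter.Tendsto (fun x : ℝ => x ^ (-δ)) Filter.atTop (nhds 0) :=
    tendsto_rpow_neg_atTop hδ
  have hev : ∀ᶠ x : ℝ in Filter.atTop, x ^ (-δ) < 1 / (2 * C) := by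
    apply hlim.eventually_lt_const
    positivity
  obtain ⟨x₀, hx₀⟩ := Filter.eventually_atTop.1 hev
  obtain ⟨t, ht⟩ := exists_nat_gt x₀
  have h1 := h (2 * t + 1) (func t)
  rw [spar_func] at h1
  have h2 : ((2 : ℝ) ^ ((t + 1 : ℕ) : ℝ)) ≤ (2 : ℝ) ^ (C * ((2 * t + 1 : ℕ) : ℝ) ^ (1 - δ)) := by
    refine le_trans ?_ h1
    rw [Real.rpow_natCast]
    exact_mod_cast le_Pat t
  rw [Real.rpow_le_rpow_left_iff (by norm_num)] at h2
  have hpos : (0 : ℝ) < ((2 * t + 1 : ℕ) : ℝ) := by positivity
  have h3 := hx₀ ((2 * t + 1 : ℕ) : ℝ) (by push_cast; nlinarith [(Nat.cast_nonneg t : (0 : ℝ) ≤ t)])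
  rw [sub_eq_add_neg, Real.rpow_add hpos, Real.rpow_one] at h2
  have h4 : C * (((2 * t + 1 : ℕ) : ℝ) * ((2 * t + 1 : ℕ) : ℝ) ^ (-δ)) <
      C * (((2 * t + 1 : ℕ) : ℝ) * (1 / (2 * C))) := by
    apply mul_lt_mul_of_pos_left _ hC
    exact mul_lt_mul_of_pos_left h3 hpos
  have h5 : C * (((2 * t + 1 : ℕ) : ℝ) * (1 / (2 * C))) = ((2 * t + 1 : ℕ) : ℝ) / 2 := by
    field_simp
  rw [h5] at h4
  push_cast at h2 h4
  linarith

end Pool.Agent.Results.MP_e3e9ef_lc.LinearPatterns
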